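import Pool.Agent.Helper61.P3.St1

/-!
# Project P3 (MP_cb927e_an), module STP (helper51): the stopped averages
-/

set_option autoImplicit false

open MeasureTheory Set Filter Topology
open scoped ENNReal RealInnerProductSpace

namespace Pool.Agent.Helper51.P3

open Pool.Agent.Helper61.P3 Pool.Agent.Helper20.RG Pool.Agent.Helper20.EQ
open Pool.Agent.Helper68.LM (Pl BB Bd Av HL ft fm DQ)
open Pool.Agent.Helper68.EP (elt GapP)

section Base

variable {κ : ℤ → ℝ} {a : ℤ} {t : ℝ}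

theorem ia_mem (hGR : Pool.Agent.Helper61.P3.StGR) (hκ : Gr κ) (a : ℤ) (t : ℝ) : t ∈ Ia κ a t :=
  (hGR.1 κ hκ a t).1

theorem ia_meas (hGR : Pool.Agent.Helper61.P3.StGR) (hκ : Gr κ) (a : ℤ) (t : ℝ) :
    MeasurableSet (Ia κ a t) := (hGR.1 κ hκ a t).2.1

theorem ia_vol (hGR : Pool.Agent.Helper61.P3.StGR) (hκ : Gr κ) (a : ℤ) (t : ℝ) :
    volume (Ia κ a t) = ENNReal.ofReal ((2 : ℝ) ^ a) := (hGR.1 κ hκ a t).2.2.1

theorem ia_real (hGR : Pool.Agent.Helper61.P3.StGR) (hκ : Gr κ) (a : ℤ) (t : ℝ) :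
    volume.real (Ia κ a t) = (2 : ℝ) ^ a := by
  unfold Measure.real
  rw [ia_vol hGR hκ, ENNReal.toReal_ofReal (by positivity)]

theorem ia_eq (hGR : Pool.Agent.Helper61.P3.StGR) (hκ : Gr κ) {a : ℤ} {t r : ℝ}
    (hr : r ∈ Ia κ a t) : Ia κ a r = Ia κ a t := ((hGR.1 κ hκ a t).2.2.2.2.1 r hr).2

theorem ia_sub (hGR : Pool.Agent.Helper61.P3.StGR) (hκ : Gr κ) {a b : ℤ} (hab : a ≤ b) (t : ℝ) :
    Ia κ a t ⊆ Ia κ b t := (hGR.1 κ hκ a t).2.2.2.2.2 b hab

theorem ia_dist (hGR : Pool.Agent.Helper61.P3.StGR) (hκ : Gr κ) {a : ℤ} {t r : ℝ}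
    (hr : r ∈ Ia κ a t) : |r - t| ≤ (2 : ℝ) ^ a := by
  have h1 := ia_mem hGR hκ a t
  unfold Ia at hr h1
  rw [abs_le]
  constructor <;> linarith [hr.1, hr.2, h1.1, h1.2]

theorem int_on (hGR : Pool.Agent.Helper61.P3.StGR) (hκ : Gr κ) {g : ℝ → ℝ} {M : ℝ}
    (hg : Measurable g) (hb : ∀ t, |g t| ≤ M) (a : ℤ) (t : ℝ) : IntegrableOn g (Ia κ a t) := by
  apply Measure.integrableOn_of_bounded (M := M)
  · rw [ia_vol hGR hκ]; exact ENNReal.ofReal_ne_top
  · exact hg.aestronglyMeasurable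
  · exact Eventually.of_forall fun r => hb r

theorem ed_congr (hGR : Pool.Agent.Helper61.P3.StGR) (hκ : Gr κ) {g g' : ℝ → ℝ}
    (h : ∀ r ∈ Ia κ a t, g r = g' r) : Ed κ a g t = Ed κ a g' t := by
  unfold Ed
  rw [setIntegral_congr_fun (ia_meas hGR hκ a t) h]

theorem ed_const (hGR : Pool.Agent.Helper61.P3.StGR) (hκ : Gr κ) {g : ℝ → ℝ} {c : ℝ}
    (h : ∀ r ∈ Ia κ a t, g r = c) : Ed κ a g t = c := by
  rw [ed_congr hGR hκ (g' := fun _ => c) h]
  unfold Ed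
  rw [setIntegral_const, ia_real hGR hκ, smul_eq_mul, ← mul_assoc, ← zpow_add₀ (by norm_num)]
  simp

theorem ed_le (hGR : Pool.Agent.Helper61.P3.StGR) (hκ : Gr κ) {g g' : ℝ → ℝ} {M M' : ℝ}
    (hg : Measurable g) (hb : ∀ t, |g t| ≤ M) (hg' : Measurable g') (hb' : ∀ t, |g' t| ≤ M')
    (h : ∀ r ∈ Ia κ a t, g r ≤ g' r) : Ed κ a g t ≤ Ed κ a g' t := by
  unfold Ed
  refine mul_le_mul_of_nonneg_left ?_ (by positivity)
  exact setIntegral_mono_on (int_on hGR hκ hg hb a t) (int_on hGR hκ hg' hb' a t)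
    (ia_meas hGR hκ a t) h

theorem ed_at (hGR : Pool.Agent.Helper61.P3.StGR) (hκ : Gr κ) {r : ℝ} (hr : r ∈ Ia κ a t)
    (g : ℝ → ℝ) : Ed κ a g r = Ed κ a g t := by
  unfold Ed
  rw [ia_eq hGR hκ hr]

theorem ed_half (hGR : Pool.Agent.Helper61.P3.StGR) (hκ : Gr κ) {g : ℝ → ℝ} {M : ℝ}
    (hg : Measurable g) (hb : ∀ t, |g t| ≤ M) (h0 : ∀ t, 0 ≤ g t) (a : ℤ) (t : ℝ) :
    Ed κ a g t ≤ 2 * Ed κ (a + 1) g t := by
  have h1 : ∫ r in Ia κ a t, g r ≤ ∫ r in Ia κ (a + 1) t, g r :=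
    setIntegral_mono_set (int_on hGR hκ hg hb (a + 1) t)
      (Eventually.of_forall fun r => h0 r) (ia_sub hGR hκ (by omega) t).eventuallyLE
  unfold Ed
  have e : (2 : ℝ) ^ (-a) = 2 * (2 : ℝ) ^ (-(a + 1)) := by
    have : -a = 1 + -(a + 1) := by ring
    rw [this, zpow_add₀ (by norm_num), zpow_one]
  rw [e, mul_assoc]
  refine mul_le_mul_of_nonneg_left ?_ (by norm_num)
  exact mul_le_mul_of_nonneg_left h1 (by positivity)

theorem ed_lin3 (hGR : Pool.Agent.Helper61.P3.StGR) (hκ : Gr κ) {g g' : ℝ → ℝ} {M M' : ℝ}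
    (hg : Measurable g) (hb : ∀ t, |g t| ≤ M) (hg' : Measurable g') (hb' : ∀ t, |g' t| ≤ M')
    (c x y : ℝ) (a : ℤ) (t : ℝ) :
    Ed κ a (fun r => c + x * g r + y * g' r) t = c + x * Ed κ a g t + y * Ed κ a g' t := by
  have i1 := int_on hGR hκ hg hb a t
  have i2 := int_on hGR hκ hg' hb' a t
  have i0 : IntegrableOn (fun _ : ℝ => c) (Ia κ a t) :=
    int_on hGR hκ (g := fun _ => c) (M := |c|) measurable_const (fun _ => le_rfl) a t
  have i3 : IntegrableOn (fun r => c + x * g r) (Ia κ a t) := i0.add (i1.const_mul x)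
  have h1 : ∫ r in Ia κ a t, (c + x * g r + y * g' r) =
      (2 : ℝ) ^ a * c + x * (∫ r in Ia κ a t, g r) + y * ∫ r in Ia κ a t, g' r := by
    rw [integral_add i3 (i2.const_mul y), integral_add i0 (i1.const_mul x), integral_const_mul,
      integral_const_mul, setIntegral_const, ia_real hGR hκ, smul_eq_mul]
  unfold Ed
  rw [h1]
  have e : (2 : ℝ) ^ (-a) * (2 : ℝ) ^ a = 1 := by
    rw [← zpow_add₀ (by norm_num)]; simp
  linear_combination c * e

theorem ed_var (hGR : Pool.Agent.Helper61.P3.StGR) (hκ : Gr κ) {g : ℝ → ℝ} {M : ℝ}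
    (hg : Measurable g) (hb : ∀ t, |g t| ≤ M) (c : ℝ) (a : ℤ) (t : ℝ) :
    Ed κ a (fun r => (g r - Ed κ a g t) ^ 2) t ≤ Ed κ a (fun r => (g r - c) ^ 2) t := by
  set m := Ed κ a g t with hm
  have hsq : ∀ r, |(g r - c) ^ 2| ≤ (M + |c|) ^ 2 := by
    intro r
    rw [abs_pow]
    have h1 : |g r - c| ≤ M + |c| := (abs_sub _ _).trans (by linarith [hb r])
    exact pow_le_pow_left₀ (abs_nonneg _) h1 2
  have h := ed_lin3 hGR hκ hg hb ((hg.sub_const c).pow_const 2) hsq (m ^ 2 - c ^ 2)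
    (-2 * (m - c)) 1 a t
  have e : (fun r => (m ^ 2 - c ^ 2) + (-2 * (m - c)) * g r + 1 * (g r - c) ^ 2) =
      fun r => (g r - m) ^ 2 := by
    funext r; ring
  rw [e, ← hm] at h
  rw [h]
  nlinarith [sq_nonneg (m - c)]

end Base

section Stop

/-- the stopping condition -/
def SS (κ : ℤ → ℝ) (β : ℝ → ℝ) (Γ : ℝ) (p : ℤ) (n : ℕ) (t : ℝ) : Prop :=
  ∃ a : ℤ, p - n ≤ a ∧ a ≤ p ∧ 1 ≤ Γ * Ed κ a β t

open Classical in
/-- the stopped averages -/
noncomputable def hn (κ : ℤ → ℝ) (β : ℝ → ℝ) (Γ : ℝ) (p : ℤ) : ℕ → ℝ → ℝ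
  | 0, t => min 1 (Γ * Ed κ p β t)
  | n + 1, t => if SS κ β Γ p n t then hn κ β Γ p n t else Γ * Ed κ (p - n - 1) β t

variable {κ : ℤ → ℝ} {β : ℝ → ℝ} {Γ : ℝ} {p : ℤ}

theorem hn_zero (t : ℝ) : hn κ β Γ p 0 t = min 1 (Γ * Ed κ p β t) := by rw [hn]

open Classical in
theorem hn_succ (n : ℕ) (t : ℝ) : hn κ β Γ p (n + 1) t =
    if SS κ β Γ p n t then hn κ β Γ p n t else Γ * Ed κ (p - n - 1) β t := by rw [hn]

theorem SS_mono {n m : ℕ} (h : n ≤ m) {t : ℝ} (hs : SS κ β Γ p n t) : SS κ β Γ p m t := by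
  obtain ⟨a, h1, h2, h3⟩ := hs
  exact ⟨a, by omega, h2, h3⟩

theorem SS_succ {n : ℕ} {t : ℝ} (h : SS κ β Γ p (n + 1) t) (h' : ¬ SS κ β Γ p n t) :
    1 ≤ Γ * Ed κ (p - n - 1) β t := by
  obtain ⟨a, h1, h2, h3⟩ := h
  by_cases ha : p - n ≤ a
  · exact absurd ⟨a, ha, h2, h3⟩ h'
  · have : a = p - n - 1 := by push_cast at h1; omega
    rwa [this] at h3

theorem SS_const (hGR : Pool.Agent.Helper61.P3.StGR) (hκ : Gr κ) {n : ℕ} {t r : ℝ}
    (hr : r ∈ Ia κ (p - n) t) : SS κ β Γ p n r ↔ SS κ β Γ p n t := by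
  unfold SS
  constructor
  · rintro ⟨a, h1, h2, h3⟩
    refine ⟨a, h1, h2, ?_⟩
    rwa [ed_at hGR hκ (ia_sub hGR hκ h1 t hr)] at h3
  · rintro ⟨a, h1, h2, h3⟩
    refine ⟨a, h1, h2, ?_⟩
    rwa [ed_at hGR hκ (ia_sub hGR hκ h1 t hr)]

theorem hn_stop {n : ℕ} {t : ℝ} (h : SS κ β Γ p n t) (k : ℕ) :
    hn κ β Γ p (n + k) t = hn κ β Γ p n t := by
  induction k with
  | zero => rfl
  | succ k ih =>
    rw [← add_assoc, hn_succ, if_pos (SS_mono (by omega) h), ih]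

theorem hn_stop' {n m : ℕ} {t : ℝ} (h : SS κ β Γ p n t) (hnm : n ≤ m) :
    hn κ β Γ p m t = hn κ β Γ p n t := by
  obtain ⟨k, rfl⟩ := Nat.exists_eq_add_of_le hnm
  exact hn_stop h k

theorem hn_go {n : ℕ} {t : ℝ} (h : ¬ SS κ β Γ p n t) :
    hn κ β Γ p n t = Γ * Ed κ (p - n) β t := by
  cases n with
  | zero =>
    have h1 : Γ * Ed κ p β t < 1 := by
      by_contra hc
      exact h ⟨p, by simp, le_rfl, not_lt.1 hc⟩
    rw [hn_zero, min_eq_right h1.le]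
    simp
  | succ n =>
    have h1 : ¬ SS κ β Γ p n t := fun hs => h (SS_mono (by omega) hs)
    rw [hn_succ, if_neg h1]
    push_cast
    rw [sub_add_eq_sub_sub]

theorem hn_lt {n : ℕ} {t : ℝ} (h : ¬ SS κ β Γ p n t) : Γ * Ed κ (p - n) β t < 1 := by
  by_contra hc
  exact h ⟨p - n, le_rfl, by omega, not_lt.1 hc⟩

theorem hn_ge {n : ℕ} {t : ℝ} (h : SS κ β Γ p n t) : 1 ≤ hn κ β Γ p n t := by
  induction n with
  | zero =>
    obtain ⟨a, h1, h2, h3⟩ := h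
    have : a = p := by simp at h1; omega
    rw [this] at h3
    rw [hn_zero, min_eq_left h3]
  | succ n ih =>
    rw [hn_succ]
    by_cases h1 : SS κ β Γ p n t
    · rw [if_pos h1]; exact ih h1
    · rw [if_neg h1]; exact SS_succ h h1

theorem hn_const (hGR : Pool.Agent.Helper61.P3.StGR) (hκ : Gr κ) {n : ℕ} {t r : ℝ}
    (hr : r ∈ Ia κ (p - n) t) : hn κ β Γ p n r = hn κ β Γ p n t := by
  induction n with
  | zero =>
    have hr' : r ∈ Ia κ p t := by simpa using hr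
    rw [hn_zero, hn_zero, ed_at hGR hκ hr']
  | succ n ih =>
    have hr0 : r ∈ Ia κ (p - n - 1) t := by
      push_cast at hr
      rwa [sub_add_eq_sub_sub] at hr
    have hr' : r ∈ Ia κ (p - n) t := ia_sub hGR hκ (by omega) t hr0
    rw [hn_succ, hn_succ]
    by_cases h1 : SS κ β Γ p n t
    · rw [if_pos h1, if_pos ((SS_const hGR hκ hr').2 h1), ih hr']
    · rw [if_neg h1, if_neg (fun h => h1 ((SS_const hGR hκ hr').1 h)), ed_at hGR hκ hr0]

end Stop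

section Main

variable {κ : ℤ → ℝ} {β : ℝ → ℝ} {Γ : ℝ} {p : ℤ}

theorem X_facts (hGA : Pool.Agent.Helper61.P3.StGA) (hκ : Gr κ)
    (hm : Measurable β) (hβ : ∀ t, 0 ≤ β t ∧ β t ≤ 1) (hΓ : 1 ≤ Γ) (a : ℤ) :
    Measurable (fun t => Γ * Ed κ a β t) ∧ (∀ t, 0 ≤ Γ * Ed κ a β t) ∧
      (∀ t, Γ * Ed κ a β t ≤ Γ) := by
  have hb : ∀ t, |β t| ≤ 1 := fun t => abs_le.2 ⟨by linarith [(hβ t).1], (hβ t).2⟩
  obtain ⟨g1, g2, -, g4, -⟩ := hGA κ hκ β 1 a hm hb
  refine ⟨g1.const_mul Γ, fun t => ?_, fun t => ?_⟩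
  · exact mul_nonneg (by linarith) (g4 (fun t => (hβ t).1) t)
  · have := (abs_le.1 (g2 t)).2
    nlinarith

theorem hn_facts (hGR : Pool.Agent.Helper61.P3.StGR) (hGA : Pool.Agent.Helper61.P3.StGA)
    (hκ : Gr κ) (hm : Measurable β) (hβ : ∀ t, 0 ≤ β t ∧ β t ≤ 1) (hΓ : 1 ≤ Γ) (n : ℕ) :
    Measurable (hn κ β Γ p n) ∧ (∀ t, 0 ≤ hn κ β Γ p n t ∧ hn κ β Γ p n t ≤ 2) := by
  have hb : ∀ t, |β t| ≤ 1 := fun t => abs_le.2 ⟨by linarith [(hβ t).1], (hβ t).2⟩
  induction n with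
  | zero =>
    obtain ⟨x1, x2, x3⟩ := X_facts hGA hκ hm hβ hΓ p
    refine ⟨?_, fun t => ?_⟩
    · have : hn κ β Γ p 0 = fun t => min 1 (Γ * Ed κ p β t) := by
        funext t; exact hn_zero t
      rw [this]
      exact measurable_const.min x1
    · rw [hn_zero]
      exact ⟨le_min zero_le_one (x2 t), (min_le_left _ _).trans (by norm_num)⟩
  | succ n ih =>
    classical
    obtain ⟨x1, x2, x3⟩ := X_facts hGA hκ hm hβ hΓ (p - n - 1)
    refine ⟨?_, fun t => ?_⟩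
    · have e : hn κ β Γ p (n + 1) = fun t =>
          if SS κ β Γ p n t then hn κ β Γ p n t else Γ * Ed κ (p - n - 1) β t := by
        funext t; exact hn_succ n t
      rw [e]
      refine Measurable.ite ?_ ih.1 x1
      have e2 : {t | SS κ β Γ p n t} =
          ⋃ a : ℤ, {t | p - n ≤ a ∧ a ≤ p ∧ 1 ≤ Γ * Ed κ a β t} := by
        ext t
        simp [SS]
      rw [e2]
      refine MeasurableSet.iUnion fun a => ?_
      exact (MeasurableSet.const _).inter ((MeasurableSet.const _).inter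
        (measurableSet_le measurable_const (X_facts hGA hκ hm hβ hΓ a).1))
    · rw [hn_succ]
      by_cases h1 : SS κ β Γ p n t
      · rw [if_pos h1]; exact ih.2 t
      · rw [if_neg h1]
        refine ⟨x2 t, ?_⟩
        have h2 := hn_lt h1
        have h3 := ed_half hGR hκ hm hb (fun t => (hβ t).1) (p - n - 1) t
        rw [sub_add_cancel] at h3
        nlinarith

theorem hn_avg (hGR : Pool.Agent.Helper61.P3.StGR) (hGA : Pool.Agent.Helper61.P3.StGA)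
    (hκ : Gr κ) (hm : Measurable β) (hβ : ∀ t, 0 ≤ β t ∧ β t ≤ 1) (n : ℕ) (t : ℝ) :
    Ed κ (p - n) (hn κ β Γ p (n + 1)) t = hn κ β Γ p n t := by
  have hb : ∀ t, |β t| ≤ 1 := fun t => abs_le.2 ⟨by linarith [(hβ t).1], (hβ t).2⟩
  by_cases h1 : SS κ β Γ p n t
  · apply ed_const hGR hκ
    intro r hr
    rw [hn_succ, if_pos ((SS_const hGR hκ hr).2 h1), hn_const hGR hκ hr]
  · have h2 : Ed κ (p - n) (hn κ β Γ p (n + 1)) t =
        Ed κ (p - n) (fun r => 0 + Γ * Ed κ (p - n - 1) β r + 0 * (0 : ℝ)) t := by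
      apply ed_congr hGR hκ
      intro r hr
      rw [hn_succ, if_neg (fun h => h1 ((SS_const hGR hκ hr).1 h))]
      ring
    obtain ⟨g1, g2, -⟩ := hGA κ hκ β 1 (p - n - 1) hm hb
    obtain ⟨-, -, -, -, -, -, g7, -⟩ := hGA κ hκ β 1 (p - n - 1) hm hb
    rw [h2, ed_lin3 hGR hκ g1 g2 (g' := fun _ => 0) (M' := 0) measurable_const (by simp),
      g7 (p - n) (by omega) t, hn_go h1]
    ring

theorem tc_meas {g : ℝ → ℝ} (hg : Measurable g) : Measurable fun t => Tc (g t) := by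
  unfold Tc
  exact hg.div (measurable_const.add hg)

theorem tc_bd (hGJ : Pool.Agent.Helper61.P3.StGJ) {g : ℝ → ℝ} (h0 : ∀ t, 0 ≤ g t) (t : ℝ) :
    |Tc (g t)| ≤ 1 := by
  obtain ⟨h1, -, h3, -⟩ := hGJ.1 (g t) (g t) (h0 t) (h0 t)
  exact abs_le.2 ⟨by linarith, h3⟩

/-- the comparison of the concave averages -/
theorem sc (hGR : Pool.Agent.Helper61.P3.StGR) (hGA : Pool.Agent.Helper61.P3.StGA)
    (hGJ : Pool.Agent.Helper61.P3.StGJ) (hκ : Gr κ) (hm : Measurable β)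
    (hβ : ∀ t, 0 ≤ β t ∧ β t ≤ 1) (hΓ : 1 ≤ Γ) (n k : ℕ) :
    ∀ j : ℕ, j + 1 + k = n → ∀ t, ¬ SS κ β Γ p j t →
      Ed κ (p - j - 1) (fun r => Tc (Γ * Ed κ (p - n) β r)) t ≤
        Ed κ (p - j - 1) (fun r => Tc (hn κ β Γ p n r)) t := by
  have hb : ∀ t, |β t| ≤ 1 := fun t => abs_le.2 ⟨by linarith [(hβ t).1], (hβ t).2⟩
  obtain ⟨x1, x2, x3⟩ := X_facts hGA hκ hm hβ hΓ (p - n)
  obtain ⟨n1, n2⟩ := hn_facts (p := p) hGR hGA hκ hm hβ hΓ n
  have m1 : Measurable fun r => Tc (Γ * Ed κ (p - n) β r) := tc_meas x1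
  have m2 : Measurable fun r => Tc (hn κ β Γ p n r) := tc_meas n1
  have b1 := fun r => tc_bd hGJ (g := fun r => Γ * Ed κ (p - n) β r) x2 r
  have b2 := fun r => tc_bd hGJ (g := hn κ β Γ p n) (fun t => (n2 t).1) r
  induction k with
  | zero =>
    intro j hj t hs
    have hn' : n = j + 1 := by omega
    subst hn'
    apply le_of_eq
    apply ed_congr hGR hκ
    intro r hr
    have hr' : r ∈ Ia κ (p - j) t := ia_sub hGR hκ (by omega) t hr
    have hs' : ¬ SS κ β Γ p j r := fun h => hs ((SS_const hGR hκ hr').1 h)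
    show Tc _ = Tc _
    rw [hn_succ, if_neg hs']
    push_cast
    rw [sub_add_eq_sub_sub]
  | succ k ih =>
    intro j hj t hs
    have ih' := ih (j + 1) (by omega)
    have e0 : p - ((j + 1 : ℕ) : ℤ) = p - j - 1 := by push_cast; ring
    rw [e0] at ih'
    by_cases h1 : SS κ β Γ p (j + 1) t
    · -- stopped at the scale `p - j - 1`
      have h2 : ∀ r ∈ Ia κ (p - j - 1) t, hn κ β Γ p n r = Γ * Ed κ (p - j - 1) β t := by
        intro r hr
        have hr1 : r ∈ Ia κ (p - ((j + 1 : ℕ) : ℤ)) t := by rwa [e0]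
        have hs1 : SS κ β Γ p (j + 1) r := (SS_const hGR hκ hr1).2 h1
        rw [hn_stop' hs1 (by omega), hn_const hGR hκ hr1, hn_succ, if_neg hs]
      have h3 : Ed κ (p - j - 1) (fun r => Tc (hn κ β Γ p n r)) t =
          Tc (Γ * Ed κ (p - j - 1) β t) := by
        apply ed_const hGR hκ
        intro r hr
        rw [h2 r hr]
      rw [h3]
      obtain ⟨hj1, -⟩ := hGJ.2 κ hκ (fun r => Γ * Ed κ (p - n) β r) Γ (p - j - 1) x1
        (fun t => ⟨x2 t, x3 t⟩) t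
      have h4 : Ed κ (p - j - 1) (fun r => Γ * Ed κ (p - n) β r) t =
          Γ * Ed κ (p - j - 1) β t := by
        obtain ⟨g1, g2, -⟩ := hGA κ hκ β 1 (p - n) hm hb
        obtain ⟨-, -, -, -, -, -, g7, -⟩ := hGA κ hκ β 1 (p - n) hm hb
        have := ed_lin3 hGR hκ g1 g2 (g' := fun _ => 0) (M' := 0) measurable_const (by simp)
          0 Γ 0 (p - j - 1) t
        rw [g7 (p - j - 1) (by omega) t] at this
        simpa using this
      rw [h4] at hj1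
      exact hj1
    · -- not stopped
      obtain ⟨-, -, -, -, -, -, g7, -⟩ := hGA κ hκ _ 1 (p - j - 1 - 1) m1 b1
      obtain ⟨-, -, -, -, -, -, g7', -⟩ := hGA κ hκ _ 1 (p - j - 1 - 1) m2 b2
      obtain ⟨q1, q2, -⟩ := hGA κ hκ _ 1 (p - j - 1 - 1) m1 b1
      obtain ⟨q1', q2', -⟩ := hGA κ hκ _ 1 (p - j - 1 - 1) m2 b2
      rw [← g7 (p - j - 1) (by omega) t, ← g7' (p - j - 1) (by omega) t]
      apply ed_le hGR hκ q1 q2 q1' q2'
      intro r hr
      have hr1 : r ∈ Ia κ (p - ((j + 1 : ℕ) : ℤ)) t := by rwa [e0]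
      exact ih' r (fun h => h1 ((SS_const hGR hκ hr1).1 h))

theorem claim1 (hGR : Pool.Agent.Helper61.P3.StGR) (hGA : Pool.Agent.Helper61.P3.StGA)
    (hGJ : Pool.Agent.Helper61.P3.StGJ) (hGE : Pool.Agent.Helper61.P3.StGE) (hκ : Gr κ)
    (hm : Measurable β) (hβ : ∀ t, 0 ≤ β t ∧ β t ≤ 1) (hΓ : 1 ≤ Γ) (n : ℕ)
    (havg : Ed κ p (hn κ β Γ p n) = hn κ β Γ p 0) (t : ℝ) :
    Ed κ p (fun r => (hn κ β Γ p n r - hn κ β Γ p 0 r) ^ 2) t ≤
      12 * en κ Γ (p - n) p β t := by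
  have hb : ∀ t, |β t| ≤ 1 := fun t => abs_le.2 ⟨by linarith [(hβ t).1], (hβ t).2⟩
  obtain ⟨-, hen, -⟩ := hGE κ hκ β Γ (p - n) p hm hβ (by linarith) (by omega)
  by_cases h1 : SS κ β Γ p 0 t
  · have h2 : Ed κ p (fun r => (hn κ β Γ p n r - hn κ β Γ p 0 r) ^ 2) t = 0 := by
      apply ed_const hGR hκ
      intro r hr
      have hr' : r ∈ Ia κ (p - ((0 : ℕ) : ℤ)) t := by simpa using hr
      rw [hn_stop' ((SS_const hGR hκ hr').2 h1) (Nat.zero_le n), sub_self]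
      norm_num
    rw [h2]
    have := (hen t).1
    linarith
  · rcases Nat.eq_zero_or_pos n with hn0 | hnpos
    · subst hn0
      have h2 : Ed κ p (fun r => (hn κ β Γ p 0 r - hn κ β Γ p 0 r) ^ 2) t = 0 := by
        apply ed_const hGR hκ
        intro r hr
        rw [sub_self]
        norm_num
      rw [h2]
      have := (hen t).1
      linarith
    · obtain ⟨k, rfl⟩ : ∃ k, n = 0 + 1 + k := ⟨n - 1, by omega⟩
      set n := 0 + 1 + k with hndef
      obtain ⟨x1, x2, x3⟩ := X_facts hGA hκ hm hβ hΓ (p - n)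
      obtain ⟨n1, n2⟩ := hn_facts (p := p) hGR hGA hκ hm hβ hΓ n
      have m1 : Measurable fun r => Tc (Γ * Ed κ (p - n) β r) := tc_meas x1
      have m2 : Measurable fun r => Tc (hn κ β Γ p n r) := tc_meas n1
      have b1 := fun r => tc_bd hGJ (g := fun r => Γ * Ed κ (p - n) β r) x2 r
      have b2 := fun r => tc_bd hGJ (g := hn κ β Γ p n) (fun t => (n2 t).1) r
      -- comparison of the concave averages
      have hcomp : Ed κ p (fun r => Tc (Γ * Ed κ (p - n) β r)) t ≤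
          Ed κ p (fun r => Tc (hn κ β Γ p n r)) t := by
        have hsc := sc (p := p) hGR hGA hGJ hκ hm hβ hΓ n k 0 hndef.symm
        have e0 : p - ((0 : ℕ) : ℤ) - 1 = p - 1 := by simp
        rw [e0] at hsc
        obtain ⟨-, -, -, -, -, -, g7, -⟩ := hGA κ hκ _ 1 (p - 1) m1 b1
        obtain ⟨-, -, -, -, -, -, g7', -⟩ := hGA κ hκ _ 1 (p - 1) m2 b2
        obtain ⟨q1, q2, -⟩ := hGA κ hκ _ 1 (p - 1) m1 b1
        obtain ⟨q1', q2', -⟩ := hGA κ hκ _ 1 (p - 1) m2 b2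
        rw [← g7 p (by omega) t, ← g7' p (by omega) t]
        apply ed_le hGR hκ q1 q2 q1' q2'
        intro r hr
        have hr1 : r ∈ Ia κ (p - ((0 : ℕ) : ℤ)) t := by simpa using hr
        exact hsc r (fun h => h1 ((SS_const hGR hκ hr1).1 h))
      -- the value `μ`
      set μ := Γ * Ed κ p β t with hμ
      have hμ1 : μ < 1 := by
        have := hn_lt h1
        simpa using this
      have hμ0 : 0 ≤ μ := (X_facts hGA hκ hm hβ hΓ p).2.1 t
      have hh0 : ∀ r ∈ Ia κ p t, hn κ β Γ p 0 r = μ := by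
        intro r hr
        rw [hn_zero, ed_at hGR hκ hr, ← hμ, min_eq_right hμ1.le]
      have hmean : Ed κ p (hn κ β Γ p n) t = μ := by
        rw [havg, hh0 t (ia_mem hGR hκ p t)]
      have hpt : ∀ r ∈ Ia κ p t, (hn κ β Γ p n r - hn κ β Γ p 0 r) ^ 2 ≤
          (12 * Tc μ - 12 * μ / (1 + μ) ^ 2) + (12 / (1 + μ) ^ 2) * hn κ β Γ p n r +
            (-12) * Tc (hn κ β Γ p n r) := by
        intro r hr
        rw [hh0 r hr]
        set x := hn κ β Γ p n r with hx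
        have hx0 : 0 ≤ x := (n2 r).1
        have hx2 : x ≤ 2 := (n2 r).2
        obtain ⟨-, -, -, -, -, -, h7, -⟩ := hGJ.1 x μ hx0 hμ0
        have hpos : 0 < (1 + μ) ^ 2 * (1 + x) := by positivity
        have h8 : (1 + μ) ^ 2 * (1 + x) ≤ 12 := by nlinarith
        have h9 : (x - μ) ^ 2 ≤ 12 * ((x - μ) ^ 2 / ((1 + μ) ^ 2 * (1 + x))) := by
          rw [← mul_div_assoc, le_div_iff₀ hpos]
          nlinarith [sq_nonneg (x - μ)]
        rw [← h7] at h9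
        have e : 12 * (Tc μ + (x - μ) / (1 + μ) ^ 2 - Tc x) =
            (12 * Tc μ - 12 * μ / (1 + μ) ^ 2) + (12 / (1 + μ) ^ 2) * x + (-12) * Tc x := by
          field_simp
          ring
        linarith
      have hnb : ∀ r, |hn κ β Γ p n r| ≤ 2 := fun r =>
        abs_le.2 ⟨by linarith [(n2 r).1], (n2 r).2⟩
      obtain ⟨z1, z2⟩ := hn_facts (p := p) hGR hGA hκ hm hβ hΓ 0
      have hsqm : Measurable fun r => (hn κ β Γ p n r - hn κ β Γ p 0 r) ^ 2 :=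
        (n1.sub z1).pow_const 2
      have hsqb : ∀ r, |(hn κ β Γ p n r - hn κ β Γ p 0 r) ^ 2| ≤ 4 := by
        intro r
        rw [abs_of_nonneg (sq_nonneg _)]
        nlinarith [(n2 r).1, (n2 r).2, (z2 r).1, (z2 r).2]
      have hrm : Measurable fun r => (12 * Tc μ - 12 * μ / (1 + μ) ^ 2) +
          (12 / (1 + μ) ^ 2) * hn κ β Γ p n r + (-12) * Tc (hn κ β Γ p n r) :=
        (measurable_const.add (n1.const_mul _)).add (m2.const_mul _)
      have hrb : ∀ r, |(12 * Tc μ - 12 * μ / (1 + μ) ^ 2) +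
          (12 / (1 + μ) ^ 2) * hn κ β Γ p n r + (-12) * Tc (hn κ β Γ p n r)| ≤
          |12 * Tc μ - 12 * μ / (1 + μ) ^ 2| + |12 / (1 + μ) ^ 2| * 2 + 12 := by
        intro r
        have t1 : |(12 / (1 + μ) ^ 2) * hn κ β Γ p n r| ≤ |12 / (1 + μ) ^ 2| * 2 := by
          rw [abs_mul]
          exact mul_le_mul_of_nonneg_left (hnb r) (abs_nonneg _)
        have t2 : |(-12) * Tc (hn κ β Γ p n r)| ≤ 12 := by
          rw [abs_mul]
          have := b2 r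
          norm_num
          linarith
        exact (abs_add_three _ _ _).trans (by linarith)
      have hle := ed_le hGR hκ hsqm hsqb hrm hrb hpt
      rw [ed_lin3 hGR hκ n1 hnb m2 b2, hmean] at hle
      have hend : en κ Γ (p - n) p β t =
          Tc μ - Ed κ p (fun r => Tc (Γ * Ed κ (p - n) β r)) t := rfl
      rw [hend]
      have e3 : 12 * Tc μ - 12 * μ / (1 + μ) ^ 2 + 12 / (1 + μ) ^ 2 * μ = 12 * Tc μ := by
        ring
      linarith

theorem claim2 (hGR : Pool.Agent.Helper61.P3.StGR) (hGA : Pool.Agent.Helper61.P3.StGA)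
    (hGJ : Pool.Agent.Helper61.P3.StGJ) (hκ : Gr κ)
    (hm : Measurable β) (hβ : ∀ t, 0 ≤ β t ∧ β t ≤ 1) (hΓ : 1 ≤ Γ) (ℓ : ℤ) (hp : p ≤ ℓ)
    (t : ℝ) :
    Ed κ ℓ (fun r => (hn κ β Γ p 0 r - Ed κ ℓ (hn κ β Γ p 0) t) ^ 2) t ≤
      16 * en κ Γ p ℓ β t := by
  have hb : ∀ t, |β t| ≤ 1 := fun t => abs_le.2 ⟨by linarith [(hβ t).1], (hβ t).2⟩
  obtain ⟨z1, z2⟩ := hn_facts (p := p) hGR hGA hκ hm hβ hΓ 0
  have hzb : ∀ r, |hn κ β Γ p 0 r| ≤ 2 := fun r =>
    abs_le.2 ⟨by linarith [(z2 r).1], (z2 r).2⟩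
  obtain ⟨x1, x2, x3⟩ := X_facts hGA hκ hm hβ hΓ p
  obtain ⟨y1, y2, y3⟩ := X_facts hGA hκ hm hβ hΓ ℓ
  have h1 := ed_var hGR hκ z1 hzb (min 1 (Γ * Ed κ ℓ β t)) ℓ t
  have hmeanX : Ed κ ℓ (fun r => Γ * Ed κ p β r) t = Γ * Ed κ ℓ β t := by
    obtain ⟨g1, g2, -⟩ := hGA κ hκ β 1 p hm hb
    obtain ⟨-, -, -, -, -, -, g7, -⟩ := hGA κ hκ β 1 p hm hb
    have := ed_lin3 hGR hκ g1 g2 (g' := fun _ => 0) (M' := 0) measurable_const (by simp)
      0 Γ 0 ℓ t
    rw [g7 ℓ hp t] at this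
    simpa using this
  obtain ⟨-, h2⟩ := hGJ.2 κ hκ (fun r => Γ * Ed κ p β r) Γ ℓ x1 (fun t => ⟨x2 t, x3 t⟩) t
  rw [hmeanX] at h2
  -- pointwise comparison
  have hpt : ∀ r ∈ Ia κ ℓ t, (hn κ β Γ p 0 r - min 1 (Γ * Ed κ ℓ β t)) ^ 2 ≤
      0 + 0 * (0 : ℝ) + 16 * (Tc (Γ * Ed κ p β r) - Tc (Γ * Ed κ ℓ β t)) ^ 2 := by
    intro r _
    rw [hn_zero]
    set x := Γ * Ed κ p β r with hx
    set y := Γ * Ed κ ℓ β t with hy
    have hx0 : 0 ≤ x := x2 r
    have hy0 : 0 ≤ y := y2 t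
    have hmx : 0 ≤ min 1 x := le_min zero_le_one hx0
    have hmy : 0 ≤ min 1 y := le_min zero_le_one hy0
    obtain ⟨-, -, -, -, -, -, -, h8⟩ := hGJ.1 (min 1 x) (min 1 y) hmx hmy
    have h9 := h8 (min_le_left _ _) (min_le_left _ _)
    have hmono : ∀ u v : ℝ, 0 ≤ u → 0 ≤ v → u ≤ v → Tc u ≤ Tc v := by
      intro u v hu hv huv
      exact (hGJ.1 u v hu hv).2.2.2.2.1 huv
    have hTx : Tc (min 1 x) = min (Tc 1) (Tc x) := by
      rcases le_total 1 x with h | h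
      · rw [min_eq_left h, min_eq_left (hmono 1 x zero_le_one hx0 h)]
      · rw [min_eq_right h, min_eq_right (hmono x 1 hx0 zero_le_one h)]
    have hTy : Tc (min 1 y) = min (Tc 1) (Tc y) := by
      rcases le_total 1 y with h | h
      · rw [min_eq_left h, min_eq_left (hmono 1 y zero_le_one hy0 h)]
      · rw [min_eq_right h, min_eq_right (hmono y 1 hy0 zero_le_one h)]
    have h10 : |Tc (min 1 x) - Tc (min 1 y)| ≤ |Tc x - Tc y| := by
      rw [hTx, hTy]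
      have := abs_min_sub_min_le_max (Tc 1) (Tc x) (Tc 1) (Tc y)
      simpa using this
    have h11 : |min 1 x - min 1 y| ≤ 4 * |Tc x - Tc y| := h9.trans (by linarith)
    have h12 := pow_le_pow_left₀ (abs_nonneg _) h11 2
    rw [sq_abs, mul_pow, sq_abs] at h12
    linarith
  have hsqm : Measurable fun r => (hn κ β Γ p 0 r - min 1 (Γ * Ed κ ℓ β t)) ^ 2 :=
    (z1.sub_const _).pow_const 2
  have hsqb : ∀ r, |(hn κ β Γ p 0 r - min 1 (Γ * Ed κ ℓ β t)) ^ 2| ≤ 4 := by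
    intro r
    have q1 : 0 ≤ min 1 (Γ * Ed κ ℓ β t) := le_min zero_le_one (y2 t)
    have q2 : min 1 (Γ * Ed κ ℓ β t) ≤ 1 := min_le_left _ _
    rw [abs_of_nonneg (sq_nonneg _)]
    nlinarith [(z2 r).1, (z2 r).2]
  have hTm : Measurable fun r => (Tc (Γ * Ed κ p β r) - Tc (Γ * Ed κ ℓ β t)) ^ 2 :=
    ((tc_meas x1).sub_const _).pow_const 2
  have hTb : ∀ r, |(Tc (Γ * Ed κ p β r) - Tc (Γ * Ed κ ℓ β t)) ^ 2| ≤ 1 := by
    intro r
    obtain ⟨a1, -, a3, -⟩ := hGJ.1 (Γ * Ed κ p β r) (Γ * Ed κ ℓ β t) (x2 r) (y2 t)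
    obtain ⟨c1, -, c3, -⟩ := hGJ.1 (Γ * Ed κ ℓ β t) (Γ * Ed κ p β r) (y2 t) (x2 r)
    rw [abs_of_nonneg (sq_nonneg _)]
    nlinarith
  have hrm : Measurable fun r => (0 : ℝ) + 0 * (0 : ℝ) +
      16 * (Tc (Γ * Ed κ p β r) - Tc (Γ * Ed κ ℓ β t)) ^ 2 :=
    measurable_const.add (hTm.const_mul _)
  have hrb : ∀ r, |(0 : ℝ) + 0 * (0 : ℝ) +
      16 * (Tc (Γ * Ed κ p β r) - Tc (Γ * Ed κ ℓ β t)) ^ 2| ≤ 16 := by
    intro r
    have := hTb r
    rw [mul_zero, add_zero, zero_add, abs_mul]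
    norm_num at this ⊢
    linarith
  have hle := ed_le hGR hκ hsqm hsqb hrm hrb hpt
  have hlin := ed_lin3 hGR hκ (g := fun _ => (0 : ℝ)) (M := 0) measurable_const (by simp) hTm hTb
    0 0 16 ℓ t
  rw [hlin] at hle
  have hend : en κ Γ p ℓ β t = Tc (Γ * Ed κ ℓ β t) -
      Ed κ ℓ (fun r => Tc (Γ * Ed κ p β r)) t := rfl
  rw [hend]
  linarith

theorem hSTP (hGR : Pool.Agent.Helper61.P3.StGR) (hGA : Pool.Agent.Helper61.P3.StGA)
    (hGJ : Pool.Agent.Helper61.P3.StGJ) (hGE : Pool.Agent.Helper61.P3.StGE) :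
    Pool.Agent.Helper61.P3.StSTP := by
  intro κ hκ β Γ p hc hcs hβ hΓ
  have hm : Measurable β := hc.measurable
  have hb : ∀ t, |β t| ≤ 1 := fun t => abs_le.2 ⟨by linarith [(hβ t).1], (hβ t).2⟩
  -- the limit exists
  have hXlim : ∀ t, Tendsto (fun n : ℕ => Γ * Ed κ (p - n) β t) atTop (𝓝 (Γ * β t)) := by
    intro t
    apply Tendsto.const_mul
    rw [Metric.tendsto_atTop]
    intro ε hε
    obtain ⟨δ, hδ, hδ2⟩ := Metric.continuousAt_iff.1 hc.continuousAt (ε / 2) (by linarith)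
    have hz : Tendsto (fun n : ℕ => (2 : ℝ) ^ (p - n)) atTop (𝓝 0) := by
      have h1 : (fun n : ℕ => (2 : ℝ) ^ (p - n)) = fun n : ℕ => (2 : ℝ) ^ p * (1 / 2) ^ n := by
        funext n
        rw [zpow_sub₀ (by norm_num), zpow_natCast, one_div, inv_pow]
        rfl
      rw [h1]
      have := (tendsto_pow_atTop_nhds_zero_of_lt_one (r := (1 / 2 : ℝ)) (by norm_num)
        (by norm_num)).const_mul ((2 : ℝ) ^ p)
      simpa using this
    obtain ⟨N, hN⟩ := eventually_atTop.1 (hz.eventually (gt_mem_nhds hδ))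
    refine ⟨N, fun n hn => ?_⟩
    have h2 : ∀ r ∈ Ia κ (p - n) t, |β r - β t| ≤ ε / 2 := by
      intro r hr
      have h3 := ia_dist hGR hκ hr
      have h4 : dist r t < δ := by
        rw [Real.dist_eq]
        exact lt_of_le_of_lt h3 (hN n hn)
      have := hδ2 h4
      rw [Real.dist_eq] at this
      exact this.le
    have hcst : ∀ c : ℝ, Ed κ (p - n) (fun _ => c) t = c := fun c =>
      ed_const hGR hκ fun _ _ => rfl
    have hup : Ed κ (p - n) β t ≤ β t + ε / 2 := by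
      have := ed_le hGR hκ hm hb (g' := fun _ => β t + ε / 2) (M' := |β t + ε / 2|)
        measurable_const (fun _ => le_rfl) (a := p - n) (t := t)
        (fun r hr => by have := (abs_le.1 (h2 r hr)).2; linarith)
      rwa [hcst] at this
    have hlo : β t - ε / 2 ≤ Ed κ (p - n) β t := by
      have := ed_le hGR hκ (g := fun _ => β t - ε / 2) (M := |β t - ε / 2|)
        measurable_const (fun _ => le_rfl) hm hb (a := p - n) (t := t)
        (fun r hr => by have := (abs_le.1 (h2 r hr)).1; linarith)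
      rwa [hcst] at this
    rw [Real.dist_eq, abs_lt]
    constructor <;> linarith
  have hlim : ∀ t, ∃ y, Tendsto (fun n => hn κ β Γ p n t) atTop (𝓝 y) := by
    intro t
    by_cases h : ∃ n, SS κ β Γ p n t
    · obtain ⟨n, hn1⟩ := h
      refine ⟨hn κ β Γ p n t, tendsto_atTop_of_eventually_const (i₀ := n) fun m hm => ?_⟩
      exact hn_stop' hn1 hm
    · push Not at h
      refine ⟨Γ * β t, ?_⟩
      have : (fun n => hn κ β Γ p n t) = fun n : ℕ => Γ * Ed κ (p - n) β t := by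
        funext n
        exact hn_go (h n)
      rw [this]
      exact hXlim t
  choose h hh using hlim
  have hfacts := fun n => hn_facts (p := p) hGR hGA hκ hm hβ hΓ n
  have hmeas : Measurable h :=
    measurable_of_tendsto_metrizable (fun n => (hfacts n).1) (tendsto_pi_nhds.2 hh)
  have hbd : ∀ t, 0 ≤ h t ∧ h t ≤ 2 := fun t =>
    ⟨ge_of_tendsto (hh t) (Eventually.of_forall fun n => ((hfacts n).2 t).1),
      le_of_tendsto (hh t) (Eventually.of_forall fun n => ((hfacts n).2 t).2)⟩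
  have hbd' : ∀ t, |h t| ≤ 2 := fun t => abs_le.2 ⟨by linarith [(hbd t).1], (hbd t).2⟩
  have hnb : ∀ n r, |hn κ β Γ p n r| ≤ 2 := fun n r =>
    abs_le.2 ⟨by linarith [((hfacts n).2 r).1], ((hfacts n).2 r).2⟩
  -- averages
  have hav : ∀ n k : ℕ, Ed κ (p - n) (hn κ β Γ p (n + k)) = hn κ β Γ p n := by
    intro n k
    induction k with
    | zero =>
      funext t
      exact ed_const hGR hκ fun r hr => hn_const hGR hκ hr
    | succ k ih =>
      funext t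
      obtain ⟨-, -, -, -, -, -, g7, -⟩ := hGA κ hκ (hn κ β Γ p (n + (k + 1))) 2
        (p - ((n + k : ℕ) : ℤ)) (hfacts _).1 (hnb _)
      rw [← g7 (p - n) (by push_cast; omega) t]
      have e : Ed κ (p - ((n + k : ℕ) : ℤ)) (hn κ β Γ p (n + (k + 1))) = hn κ β Γ p (n + k) := by
        funext r
        exact hn_avg hGR hGA hκ hm hβ (n + k) r
      rw [e, ih]
  have havh : ∀ n : ℕ, Ed κ (p - n) h = hn κ β Γ p n := by
    intro n
    funext t
    have h1 : Tendsto (fun m => Ed κ (p - n) (hn κ β Γ p m) t) atTop (𝓝 (Ed κ (p - n) h t)) := by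
      unfold Ed
      apply Tendsto.const_mul
      refine tendsto_integral_of_dominated_convergence (fun _ => (2 : ℝ))
        (fun m => (hfacts m).1.aestronglyMeasurable) ?_ ?_ ?_
      · exact int_on hGR hκ (g := fun _ => (2 : ℝ)) (M := 2) measurable_const (by simp) _ _
      · intro m
        exact Eventually.of_forall fun r => hnb m r
      · exact Eventually.of_forall fun r => hh r
    have h2 : Tendsto (fun m => Ed κ (p - n) (hn κ β Γ p m) t) atTop (𝓝 (hn κ β Γ p n t)) := by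
      refine tendsto_atTop_of_eventually_const (i₀ := n) fun m hm => ?_
      obtain ⟨k, rfl⟩ := Nat.exists_eq_add_of_le hm
      rw [hav]
    exact tendsto_nhds_unique h1 h2
  have havp : Ed κ p h = hn κ β Γ p 0 := by
    have := havh 0
    simpa using this
  have havpn : ∀ n, Ed κ p (hn κ β Γ p n) = hn κ β Γ p 0 := by
    intro n
    have := hav 0 n
    simpa using this
  obtain ⟨-, -, -, -, -, -, g7h, -⟩ := hGA κ hκ h 2 p hmeas hbd'
  refine ⟨h, hmeas, hbd, ?_, ?_, ?_, ?_⟩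
  · -- support
    obtain ⟨K, hK⟩ := hcs.isCompact.isBounded.exists_norm_le
    refine ⟨K + (2 : ℝ) ^ p, fun t ht => ?_⟩
    have h0 : ∀ r, K < |r| → β r = 0 := by
      intro r hr
      by_contra hne
      have := hK r (subset_tsupport β (Function.mem_support.2 hne))
      rw [Real.norm_eq_abs] at this
      linarith
    have hX : ∀ a : ℤ, a ≤ p → Γ * Ed κ a β t = 0 := by
      intro a ha
      rw [ed_const hGR hκ (c := 0), mul_zero]
      intro r hr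
      apply h0
      have h1 := ia_dist hGR hκ (ia_sub hGR hκ ha t hr)
      have h2 := abs_sub_abs_le_abs_sub t r
      rw [abs_sub_comm t r] at h2
      linarith
    have hz : ∀ n, hn κ β Γ p n t = 0 := by
      intro n
      induction n with
      | zero =>
        rw [hn_zero, hX p le_rfl]
        simp
      | succ n ih =>
        rw [hn_succ, ih, hX _ (by omega)]
        simp
    have := hh t
    simp only [hz] at this
    exact tendsto_nhds_unique this tendsto_const_nhds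
  · -- (h1)
    intro a ha t h1
    have hs : SS κ β Γ p (p - a).toNat t := ⟨a, by omega, ha, h1⟩
    refine ge_of_tendsto (hh t) (eventually_atTop.2 ⟨(p - a).toNat, fun m hm => ?_⟩)
    exact hn_ge (SS_mono hm hs)
  · -- (h2)
    intro ℓ hℓ t
    rw [← g7h ℓ hℓ t, havp]
    obtain ⟨x1, x2, x3⟩ := X_facts hGA hκ hm hβ hΓ p
    have h1 := ed_le hGR hκ (hfacts 0).1 (hnb 0) x1
      (fun t => abs_le.2 ⟨by linarith [x2 t], x3 t⟩) (a := ℓ) (t := t)
      (fun r _ => by rw [hn_zero]; exact min_le_right _ _)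
    have hmeanX : Ed κ ℓ (fun r => Γ * Ed κ p β r) t = Γ * Ed κ ℓ β t := by
      obtain ⟨g1, g2, -⟩ := hGA κ hκ β 1 p hm hb
      obtain ⟨-, -, -, -, -, -, g7, -⟩ := hGA κ hκ β 1 p hm hb
      have := ed_lin3 hGR hκ g1 g2 (g' := fun _ => 0) (M' := 0) measurable_const (by simp)
        0 Γ 0 ℓ t
      rw [g7 ℓ hℓ t] at this
      simpa using this
    rw [hmeanX] at h1
    exact h1
  · -- (h3)
    intro a ℓ ha hℓ t
    obtain ⟨n, rfl⟩ : ∃ n : ℕ, a = p - n := ⟨(p - a).toNat, by omega⟩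
    rw [havh n]
    have hf : ∀ r ∈ Ia κ ℓ t, Ed κ ℓ h r = Ed κ ℓ h t := fun r hr => ed_at hGR hκ hr h
    have hmean : Ed κ ℓ h t = Ed κ ℓ (hn κ β Γ p 0) t := by
      rw [← g7h ℓ hℓ t, havp]
    set m := Ed κ ℓ h t with hmdef
    have hm0 : 0 ≤ m := by
      obtain ⟨-, -, -, g4, -⟩ := hGA κ hκ h 2 ℓ hmeas hbd'
      exact g4 (fun t => (hbd t).1) t
    have hm2 : m ≤ 2 := by
      obtain ⟨-, g2, -⟩ := hGA κ hκ h 2 ℓ hmeas hbd'
      exact (abs_le.1 (g2 t)).2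
    -- the two parts
    have q1m : Measurable fun r => (hn κ β Γ p n r - hn κ β Γ p 0 r) ^ 2 :=
      ((hfacts n).1.sub (hfacts 0).1).pow_const 2
    have q1b : ∀ r, |(hn κ β Γ p n r - hn κ β Γ p 0 r) ^ 2| ≤ 4 := by
      intro r
      rw [abs_of_nonneg (sq_nonneg _)]
      nlinarith [((hfacts n).2 r).1, ((hfacts n).2 r).2, ((hfacts 0).2 r).1, ((hfacts 0).2 r).2]
    have q2m : Measurable fun r => (hn κ β Γ p 0 r - m) ^ 2 :=
      ((hfacts 0).1.sub_const _).pow_const 2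
    have q2b : ∀ r, |(hn κ β Γ p 0 r - m) ^ 2| ≤ 4 := by
      intro r
      rw [abs_of_nonneg (sq_nonneg _)]
      nlinarith [((hfacts 0).2 r).1, ((hfacts 0).2 r).2]
    have q3m : Measurable fun r => (hn κ β Γ p n r - Ed κ ℓ h r) ^ 2 :=
      ((hfacts n).1.sub (hGA κ hκ h 2 ℓ hmeas hbd').1).pow_const 2
    have q3b : ∀ r, |(hn κ β Γ p n r - Ed κ ℓ h r) ^ 2| ≤ 16 := by
      intro r
      have w1 := abs_le.1 ((hGA κ hκ h 2 ℓ hmeas hbd').2.1 r)
      rw [abs_of_nonneg (sq_nonneg _)]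
      nlinarith [((hfacts n).2 r).1, ((hfacts n).2 r).2, w1.1, w1.2]
    have hpt : ∀ r ∈ Ia κ ℓ t, (hn κ β Γ p n r - Ed κ ℓ h r) ^ 2 ≤
        0 + 2 * (hn κ β Γ p n r - hn κ β Γ p 0 r) ^ 2 + 2 * (hn κ β Γ p 0 r - m) ^ 2 := by
      intro r hr
      rw [hf r hr]
      nlinarith [sq_nonneg ((hn κ β Γ p n r - hn κ β Γ p 0 r) - (hn κ β Γ p 0 r - m))]
    have hrm : Measurable fun r => (0 : ℝ) + 2 * (hn κ β Γ p n r - hn κ β Γ p 0 r) ^ 2 +
        2 * (hn κ β Γ p 0 r - m) ^ 2 :=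
      (measurable_const.add (q1m.const_mul _)).add (q2m.const_mul _)
    have hrb : ∀ r, |(0 : ℝ) + 2 * (hn κ β Γ p n r - hn κ β Γ p 0 r) ^ 2 +
        2 * (hn κ β Γ p 0 r - m) ^ 2| ≤ 16 := by
      intro r
      have w1 := abs_le.1 (q1b r)
      have w2 := abs_le.1 (q2b r)
      have w3 := sq_nonneg (hn κ β Γ p n r - hn κ β Γ p 0 r)
      have w4 := sq_nonneg (hn κ β Γ p 0 r - m)
      rw [abs_le]
      constructor <;> linarith [w1.2, w2.2]
    have hle := ed_le hGR hκ q3m q3b hrm hrb hpt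
    rw [ed_lin3 hGR hκ q1m q1b q2m q2b] at hle
    have hc2 := claim2 (p := p) hGR hGA hGJ hκ hm hβ hΓ ℓ hℓ t
    rw [← hmean] at hc2
    have hc1 : Ed κ ℓ (fun r => (hn κ β Γ p n r - hn κ β Γ p 0 r) ^ 2) t ≤
        12 * Ed κ ℓ (en κ Γ (p - n) p β) t := by
      obtain ⟨-, -, -, -, -, -, g7, -⟩ := hGA κ hκ _ 4 p q1m q1b
      obtain ⟨k1, k2, -⟩ := hGA κ hκ _ 4 p q1m q1b
      rw [← g7 ℓ hℓ t]
      obtain ⟨e1, e2, -⟩ := hGE κ hκ β Γ (p - n) p hm hβ (by linarith) (by omega)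
      have eb : ∀ r, |en κ Γ (p - n) p β r| ≤ 1 := fun r =>
        abs_le.2 ⟨by linarith [(e2 r).1], (e2 r).2.2⟩
      have hle2 := ed_le hGR hκ k1 k2 (g' := fun r => 0 + 0 * (0 : ℝ) + 12 *
        en κ Γ (p - n) p β r) (M' := 12) (measurable_const.add (e1.const_mul _))
        (fun r => by
          have w1 := e2 r
          rw [abs_le]
          constructor <;> linarith [w1.1, w1.2.2]) (a := ℓ) (t := t)
        (fun r _ => by
          have := claim1 hGR hGA hGJ hGE hκ hm hβ hΓ n (havpn n) r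
          linarith)
      have hlin := ed_lin3 hGR hκ (g := fun _ => (0 : ℝ)) (M := 0) measurable_const (by simp)
        e1 eb 0 0 12 ℓ t
      rw [hlin] at hle2
      linarith
    obtain ⟨-, hE0, -, hE1, -⟩ := hGE κ hκ β Γ (p - n) ℓ hm hβ (by linarith) (by omega)
    obtain ⟨hle1, hadd⟩ := hE1 p (by omega) hℓ t
    obtain ⟨-, hEp, -⟩ := hGE κ hκ β Γ p ℓ hm hβ (by linarith) hℓ
    have hp0 := (hEp t).1
    have hen0 := (hE0 t).1
    linarith

end Main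

end Pool.Agent.Helper51.P3
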